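import Pool.Agent.Lib.H42W.Fin

/-!
# MP_5a602a_nt: the spectra of the four exact-degree exponents

For every `n ≥ 1` the spectrum of `w_{=n}` is `[n, ∞]` and the spectrum of `w*_{=n}` contains
`[n, ∞]`; for `n ≥ 5` the latter is contained in `[n / (2 - log 2), ∞]`; for `n ≥ 2` every
`τ ∈ [0, n]` is a common value of the two uniform exponents.
-/

open Polynomial Filter

namespace Pool.Agent.Results.MP_5a602a_nt.ExactDegreeSpectra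

/-- The height of an integer polynomial: the maximum of the absolute values of its coefficients. -/
noncomputable def height (P : ℤ[X]) : ℕ := P.support.sup fun i => (P.coeff i).natAbs

/-- The polynomial `P ∈ ℤ[T]` is irreducible of degree exactly `n`, and
`H(P) ≤ X`, `0 < |P(ζ)| ≤ X^(-w)`. -/
def PolySol (n : ℕ) (ζ w X : ℝ) (P : ℤ[X]) : Prop :=
  Irreducible P ∧ P.natDegree = n ∧ (height P : ℝ) ≤ X ∧ 0 < |aeval ζ P| ∧ |aeval ζ P| ≤ X ^ (-w)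

/-- The real number `α ≠ 0` is algebraic of degree exactly `n` (`P` is, up to sign, its minimal
polynomial over the integers, so `H(α) = H(P)`), and `H(α) ≤ X`, `0 < |ζ - α| ≤ H(α)⁻¹ X^(-w)`. -/
def NumSol (n : ℕ) (ζ w X α : ℝ) (P : ℤ[X]) : Prop :=
  α ≠ 0 ∧ Irreducible P ∧ P.natDegree = n ∧ aeval α P = 0 ∧ (height P : ℝ) ≤ X ∧
    0 < |ζ - α| ∧ |ζ - α| ≤ (height P : ℝ)⁻¹ * X ^ (-w)

/-- The exponent `w_{=n}(ζ)`. -/
noncomputable def exactExp (n : ℕ) (ζ : ℝ) : EReal :=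
  sSup ((fun w : ℝ => (w : EReal)) '' {w : ℝ | ∃ᶠ X : ℝ in atTop, ∃ P : ℤ[X], PolySol n ζ w X P})

/-- The exponent `w*_{=n}(ζ)`. -/
noncomputable def starExp (n : ℕ) (ζ : ℝ) : EReal :=
  sSup ((fun w : ℝ => (w : EReal)) ''
    {w : ℝ | ∃ᶠ X : ℝ in atTop, ∃ (α : ℝ) (P : ℤ[X]), NumSol n ζ w X α P})

/-- The uniform exponent `ŵ_{=n}(ζ)`. -/
noncomputable def uniformExp (n : ℕ) (ζ : ℝ) : EReal :=
  sSup ((fun w : ℝ => (w : EReal)) '' {w : ℝ | ∀ᶠ X : ℝ in atTop, ∃ P : ℤ[X], PolySol n ζ w X P})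

/-- The uniform exponent `ŵ*_{=n}(ζ)`. -/
noncomputable def uniformExpStar (n : ℕ) (ζ : ℝ) : EReal :=
  sSup ((fun w : ℝ => (w : EReal)) ''
    {w : ℝ | ∀ᶠ X : ℝ in atTop, ∃ (α : ℝ) (P : ℤ[X]), NumSol n ζ w X α P})

/-- The classical uniform exponent `ŵ_n(ζ)`. -/
noncomputable def unifExp (n : ℕ) (ζ : ℝ) : EReal :=
  sSup ((fun w : ℝ => (w : EReal)) '' {w : ℝ | ∀ᶠ X : ℝ in atTop, ∃ P : ℤ[X], P ≠ 0 ∧
    P.natDegree ≤ n ∧ (height P : ℝ) ≤ X ∧ 0 < |aeval ζ P| ∧ |aeval ζ P| ≤ X ^ (-w)})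

/-- The spectrum of an exponent: the set of its values at transcendental real numbers. -/
def spec (e : ℝ → EReal) : Set EReal := {w : EReal | ∃ ζ : ℝ, Transcendental ℚ ζ ∧ e ζ = w}

/-- (1) `Spec(w_{=n}) = [n, ∞]`; (2) `[n, ∞] ⊆ Spec(w*_{=n})`; (3) `Spec(w*_{=n}) ⊆ [n/(2 - log 2), ∞]`
for `n ≥ 5`; (4) every `τ ∈ [0, n]` is a common value of `ŵ_{=n}` and `ŵ*_{=n}` for `n ≥ 2`;
(5) `n ≤ ŵ_n ≤ w_{=n}`. -/
theorem result :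
    (∀ n : ℕ, 1 ≤ n → spec (exactExp n) = Set.Icc (n : EReal) ⊤) ∧
    (∀ n : ℕ, 1 ≤ n → Set.Icc (n : EReal) ⊤ ⊆ spec (starExp n)) ∧
    (∀ n : ℕ, 5 ≤ n → spec (starExp n) ⊆ Set.Icc ((n / (2 - Real.log 2) : ℝ) : EReal) ⊤) ∧
    (∀ n : ℕ, 2 ≤ n → ∀ τ : ℝ, 0 ≤ τ → τ ≤ n → ∃ ζ : ℝ, Transcendental ℚ ζ ∧
      uniformExp n ζ = (τ : EReal) ∧ uniformExpStar n ζ = (τ : EReal)) ∧
    (∀ n : ℕ, 1 ≤ n → ∀ ζ : ℝ, Transcendental ℚ ζ →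
      (n : EReal) ≤ unifExp n ζ ∧ unifExp n ζ ≤ exactExp n ζ) := by
  refine ⟨fun n hn => Lib.H42W.spec_exact n hn, fun n hn => Lib.H42W.spec_star n hn,
    fun n hn => Lib.H42W.spec_star_lower n hn, fun n hn τ h0 h1 => ?_, fun n hn ζ hζ => ?_⟩
  · obtain ⟨ζ, hζ, h2, h3⟩ := Lib.H70X.main n hn τ h0 h1
    exact ⟨ζ, Lib.H42W.transc_rat hζ, h2, h3⟩
  · exact Lib.H70W.main n hn ζ (Lib.H42W.transc_int hζ)

end Pool.Agent.Results.MP_5a602a_nt.ExactDegreeSpectra
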