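import Pool.Agent.Lib.H42W.Fin
import Pool.Agent.Lib.H42Y.FIN

/-!
# MP_5a602a_nt: `w*_{=n}(ζ) ≥ 4n/5` for all large `n`

For every `n ≥ 10^7` and every transcendental real number `ζ` the exponent `w*_{=n}(ζ)` of
approximation by real algebraic numbers of degree exactly `n` is at least `4n/5`, and so is the
classical exponent `w*_n(ζ)`.
-/

open Polynomial Filter

namespace Pool.Agent.Results.MP_5a602a_nt.FourFifths

/-- The height of an integer polynomial: the maximum of the absolute values of its coefficients. -/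
noncomputable def height (P : ℤ[X]) : ℕ := P.support.sup fun i => (P.coeff i).natAbs

/-- The real number `α ≠ 0` is algebraic of degree exactly `n` (`P` is, up to sign, its minimal
polynomial over the integers, so `H(α) = H(P)`), and `H(α) ≤ X`, `0 < |ζ - α| ≤ H(α)⁻¹ X^(-w)`. -/
def NumSol (n : ℕ) (ζ w X α : ℝ) (P : ℤ[X]) : Prop :=
  α ≠ 0 ∧ Irreducible P ∧ P.natDegree = n ∧ aeval α P = 0 ∧ (height P : ℝ) ≤ X ∧
    0 < |ζ - α| ∧ |ζ - α| ≤ (height P : ℝ)⁻¹ * X ^ (-w)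

/-- The exponent `w*_{=n}(ζ)`. -/
noncomputable def starExp (n : ℕ) (ζ : ℝ) : EReal :=
  sSup ((fun w : ℝ => (w : EReal)) ''
    {w : ℝ | ∃ᶠ X : ℝ in atTop, ∃ (α : ℝ) (P : ℤ[X]), NumSol n ζ w X α P})

/-- The classical exponent `w*_n(ζ)`: algebraic numbers of degree at most `n`. -/
noncomputable def classExp (n : ℕ) (ζ : ℝ) : EReal :=
  sSup ((fun w : ℝ => (w : EReal)) ''
    {w : ℝ | ∃ᶠ X : ℝ in atTop, ∃ m ≤ n, ∃ (α : ℝ) (P : ℤ[X]), NumSol m ζ w X α P})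

/-- The spectrum of an exponent: the set of its values at transcendental real numbers. -/
def spec (e : ℝ → EReal) : Set EReal := {w : EReal | ∃ ζ : ℝ, Transcendental ℚ ζ ∧ e ζ = w}

/-- For `n ≥ 10^7`: `Spec(w*_{=n}) ⊆ [4n/5, ∞]`, and `4n/5 ≤ w*_{=n}(ζ) ≤ w*_n(ζ)` for every
transcendental real `ζ`. -/
theorem result (n : ℕ) (hn : 10 ^ 7 ≤ n) :
    spec (starExp n) ⊆ Set.Icc ((4 * n / 5 : ℝ) : EReal) ⊤ ∧
      ∀ ζ : ℝ, Transcendental ℚ ζ →
        ((4 * n / 5 : ℝ) : EReal) ≤ starExp n ζ ∧ starExp n ζ ≤ classExp n ζ := by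
  have key : ∀ ζ : ℝ, Transcendental ℚ ζ → ((4 * n / 5 : ℝ) : EReal) ≤ starExp n ζ :=
    fun ζ hζ => Lib.H42Y.four_fifths n hn ζ (Lib.H42W.transc_int hζ)
  refine ⟨?_, fun ζ hζ => ⟨key ζ hζ, ?_⟩⟩
  · rintro w ⟨ζ, hζ, rfl⟩
    exact ⟨key ζ hζ, le_top⟩
  · refine sSup_le_sSup (Set.image_mono fun w hw => ?_)
    exact Filter.Frequently.mono hw fun X ⟨α, P, h⟩ => ⟨n, le_rfl, α, P, h⟩

end Pool.Agent.Results.MP_5a602a_nt.FourFifths
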